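import Pool.Agent.H80.JD.Walk

set_option autoImplicit false

namespace Pool.Agent.H30.JD

open Finset Filter Topology Pool.Agent.H80.JD

lemma aux1 {m P : ℝ} (hm : 0 < m) (hP : 0 ≤ P) :
    148 ^ 2 / (10 ^ 6 * m) ^ 2 * (4 * (P * (16 * m))) ≤ 2 / (10 ^ 6 * m) * P := by
  have s5 : (148 : ℝ) ^ 2 / (10 ^ 6 * m) ^ 2 * (4 * (P * (16 * m))) =
      (148 ^ 2 * 64 / 10 ^ 12) * (P / m) := by
    have h1 : (10 ^ 6 * m) ^ 2 = 10 ^ 12 * m * m := by ring
    rw [h1, div_mul_eq_mul_div, div_eq_iff (by positivity)]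
    have h2 : (148 ^ 2 * 64 / 10 ^ 12) * (P / m) * (10 ^ 12 * m * m) =
        148 ^ 2 * 64 * P * m * (m / m) := by ring
    rw [h2, div_self hm.ne']
    ring
  have s6 : 2 / (10 ^ 6 * m) * P = (2 / 10 ^ 6) * (P / m) := by
    rw [div_mul_eq_mul_div, div_eq_iff (by positivity)]
    have h2 : (2 / 10 ^ 6) * (P / m) * (10 ^ 6 * m) = 2 * P * (m / m) := by ring
    rw [h2, div_self hm.ne']
    ring
  rw [s5, s6]
  apply mul_le_mul_of_nonneg_right _ (by positivity)
  norm_num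

lemma aux2 {m r : ℝ} (hm : 0 < m) :
    148 / (10 ^ 6 * m) * (512 * (m * r)) = 148 * 512 / 10 ^ 6 * r := by
  have h2 : 148 / (10 ^ 6 * m) * (512 * (m * r)) = 148 * 512 / 10 ^ 6 * r * (m / m) := by ring
  rw [h2, div_self hm.ne', mul_one]

lemma aux3 {m r : ℝ} (hm : 0 < m) :
    64 / (10 ^ 6 * m) * (512 * (m * r)) * (64 * m) = (64 * 512 * 64 / 10 ^ 6) * (m * r) := by
  have h2 : 64 / (10 ^ 6 * m) * (512 * (m * r)) * (64 * m) =
      (64 * 512 * 64 / 10 ^ 6) * (m * r) * (m / m) := by ring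
  rw [h2, div_self hm.ne', mul_one]

theorem gr : T_GR := by
  intro m B S hm hB hS hsum
  have hmR : (1 : ℝ) ≤ m := by exact_mod_cast hm
  have hm0 : (0 : ℝ) < m := by linarith
  set r : ℝ := Real.sqrt m with hr
  have hr2 : r ^ 2 = m := Real.sq_sqrt hm0.le
  have hr1 : 1 ≤ r := by
    rw [hr]
    exact Real.one_le_sqrt.2 hmR
  have hr0 : 0 < r := by linarith
  have hrm : r ≤ m := by nlinarith
  have hB0 : 0 < B := by rw [hB]; linarith
  have hB2 : B ^ 2 = 10 ^ 6 * m := by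
    rw [hB, ← hr2]
    ring
  set a : Fin m → ℝ := fun j => hh B (S j) with ha
  set y : Fin m → ℝ := fun j => (S j : ℝ) / B with hy
  have hy2 : ∀ j, (y j) ^ 2 < 1 := by
    intro j
    have h1 : |y j| < 1 := by
      simp only [hy]
      rw [abs_div, abs_of_pos hB0, div_lt_one hB0]
      exact hS j
    have h2 := abs_nonneg (y j)
    rw [← sq_abs]
    nlinarith
  have haj : ∀ j, a j * (1 - (y j) ^ 2) = 1 := by
    intro j
    have h1 : 1 - (y j) ^ 2 ≠ 0 := by
      have := hy2 j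
      intro h
      linarith
    simp only [ha, hh]
    exact one_div_mul_cancel h1
  have hapos : ∀ j, 0 < a j := by
    intro j
    simp only [ha, hh]
    have := hy2 j
    apply one_div_pos.2
    simp only [hy] at this
    linarith
  have ha1 : ∀ j, 1 ≤ a j := by
    intro j
    have h1 := haj j
    have h2 := hapos j
    nlinarith [sq_nonneg (y j), mul_nonneg h2.le (sq_nonneg (y j))]
  have h4 : ∀ j, (a j) ^ 4 ≤ 64 * m := by
    intro j
    refine le_trans ?_ hsum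
    exact Finset.single_le_sum (f := fun j => (a j) ^ 4) (fun i _ => by positivity) (mem_univ j)
  have h2 : ∀ j, (a j) ^ 2 ≤ 8 * r := by
    intro j
    have h := h4 j
    rw [← hr2] at h
    by_contra hc
    push Not at hc
    have : (8 * r) ^ 2 < ((a j) ^ 2) ^ 2 := by
      apply pow_lt_pow_left₀ hc (by positivity) (by norm_num)
    nlinarith
  have h6 : ∀ j, (a j) ^ 6 ≤ 512 * (m * r) := by
    intro j
    have h := h2 j
    have h' : ((a j) ^ 2) ^ 3 ≤ (8 * r) ^ 3 := pow_le_pow_left₀ (by positivity) h 3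
    calc (a j) ^ 6 = ((a j) ^ 2) ^ 3 := by ring
      _ ≤ (8 * r) ^ 3 := h'
      _ = 512 * (r ^ 2 * r) := by ring
      _ = 512 * (m * r) := by rw [hr2]
  have hs4 : ∑ j, (a j) ^ 4 ≤ 64 * m := hsum
  have hs6 : ∑ j, (a j) ^ 6 ≤ 512 * (m * r) := by
    calc ∑ j, (a j) ^ 6 ≤ ∑ j, (8 * r) * (a j) ^ 4 := by
          apply Finset.sum_le_sum
          intro j _
          have h := h2 j
          have : (a j) ^ 6 = (a j) ^ 2 * (a j) ^ 4 := by ring
          rw [this]
          exact mul_le_mul_of_nonneg_right h (by positivity)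
      _ = 8 * r * ∑ j, (a j) ^ 4 := by rw [Finset.mul_sum]
      _ ≤ 8 * r * (64 * m) := mul_le_mul_of_nonneg_left hs4 (by positivity)
      _ = 512 * (m * r) := by ring
  have hdd : ∀ j, (dd B (S j)) ^ 2 = 64 / B ^ 2 * ((y j) ^ 2 * (a j) ^ 10) := by
    intro j
    simp only [dd, ha, hy]
    ring
  refine ⟨fun j => ⟨ha1 j, ?_⟩, ?_, ?_, ?_⟩
  · have h := h2 j
    have hBr : B / 24 = 1000 * r / 24 := by rw [hB]
    have h3 : hh B (S j) = a j := rfl
    rw [h3, hBr]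
    by_contra hc
    push Not at hc
    have h5 : (1000 * r / 24) ^ 2 < (a j) ^ 2 :=
      pow_lt_pow_left₀ hc (by positivity) (by norm_num)
    nlinarith
  · have h3 : ∑ j, (hh B (S j)) ^ 6 = ∑ j, (a j) ^ 6 := rfl
    rw [h3, hB2]
    have h5 : 148 / (10 ^ 6 * (m : ℝ)) * ∑ j, (a j) ^ 6 ≤ 148 / (10 ^ 6 * (m : ℝ)) * (512 * (m * r)) :=
      mul_le_mul_of_nonneg_left hs6 (by positivity)
    rw [aux2 hm0] at h5
    nlinarith
  · intro hlow
    have hlow' : 32 * (m : ℝ) ≤ ∑ j, (a j) ^ 4 := hlow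
    set H : Finset (Fin m) := univ.filter (fun j => 2 ≤ a j) with hH
    have hHmem : ∀ j ∈ H, 2 ≤ a j := fun j hj => (mem_filter.1 hj).2
    have hsplit : ∀ f : Fin m → ℝ, ∑ j, f j = ∑ j ∈ H, f j +
        ∑ j ∈ univ.filter (fun j => ¬ 2 ≤ a j), f j := fun f =>
      (Finset.sum_filter_add_sum_filter_not univ (fun j => 2 ≤ a j) f).symm
    have hN : ∀ (k : ℕ), ∑ j ∈ univ.filter (fun j => ¬ 2 ≤ a j), (a j) ^ k ≤ 2 ^ k * m := by
      intro k
      calc ∑ j ∈ univ.filter (fun j => ¬ 2 ≤ a j), (a j) ^ k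
          ≤ ∑ j ∈ univ.filter (fun j => ¬ 2 ≤ a j), (2 : ℝ) ^ k := by
            apply Finset.sum_le_sum
            intro j hj
            have := (mem_filter.1 hj).2
            push Not at this
            exact pow_le_pow_left₀ (hapos j).le this.le k
        _ = ((univ.filter (fun j : Fin m => ¬ 2 ≤ a j)).card : ℝ) * 2 ^ k := by
            rw [Finset.sum_const, nsmul_eq_mul]
        _ ≤ (m : ℝ) * 2 ^ k := by
            apply mul_le_mul_of_nonneg_right _ (by positivity)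
            have h := Finset.card_filter_le (univ : Finset (Fin m)) (fun j => ¬ 2 ≤ a j)
            rw [Finset.card_univ, Fintype.card_fin] at h
            exact_mod_cast h
        _ = 2 ^ k * m := by ring
    have hH4 : 16 * (m : ℝ) ≤ ∑ j ∈ H, (a j) ^ 4 := by
      have h := hsplit (fun j => (a j) ^ 4)
      have h' : ∑ j ∈ univ.filter (fun j => ¬ 2 ≤ a j), (a j) ^ 4 ≤ 16 * m :=
        le_trans (hN 4) (le_of_eq (by norm_num))
      linarith
    have hH4' : ∑ j ∈ H, (a j) ^ 4 ≤ 64 * m := by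
      have h := hsplit (fun j => (a j) ^ 4)
      have h' : 0 ≤ ∑ j ∈ univ.filter (fun j => ¬ 2 ≤ a j), (a j) ^ 4 :=
        Finset.sum_nonneg (fun j _ => by positivity)
      linarith
    have hH6 : 4 * ∑ j ∈ H, (a j) ^ 4 ≤ ∑ j ∈ H, (a j) ^ 6 := by
      rw [Finset.mul_sum]
      apply Finset.sum_le_sum
      intro j hj
      have h := hHmem j hj
      have : (a j) ^ 6 = (a j) ^ 2 * (a j) ^ 4 := by ring
      rw [this]
      exact mul_le_mul_of_nonneg_right (by nlinarith) (by positivity)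
    have hs6' : ∑ j, (a j) ^ 6 ≤ 2 * ∑ j ∈ H, (a j) ^ 6 := by
      have h := hsplit (fun j => (a j) ^ 6)
      have h' : ∑ j ∈ univ.filter (fun j => ¬ 2 ≤ a j), (a j) ^ 6 ≤ 64 * m :=
        le_trans (hN 6) (le_of_eq (by norm_num))
      linarith
    have hH2 : ∑ j ∈ H, (a j) ^ 2 ≤ 16 * m := by
      have : ∑ j ∈ H, (a j) ^ 2 ≤ ∑ j ∈ H, (1 / 4) * (a j) ^ 4 := by
        apply Finset.sum_le_sum
        intro j hj
        have h := hHmem j hj
        have h4 : 4 ≤ (a j) ^ 2 := by nlinarith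
        nlinarith [sq_nonneg ((a j) ^ 2)]
      rw [← Finset.mul_sum] at this
      linarith
    set P : ℝ := ∑ j ∈ H, (a j) ^ 10 with hP
    have hP4 : ∑ j ∈ H, (a j) ^ 4 ≤ P := by
      apply Finset.sum_le_sum
      intro j _
      exact pow_le_pow_right₀ (ha1 j) (by norm_num)
    have hPpos : 0 < P := by linarith
    have hCS : (∑ j ∈ H, (a j) ^ 6) ^ 2 ≤ P * ∑ j ∈ H, (a j) ^ 2 := by
      have h := Finset.sum_mul_sq_le_sq_mul_sq H (fun j => (a j) ^ 5) (fun j => a j)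
      have e1 : ∀ j, (a j) ^ 5 * a j = (a j) ^ 6 := fun j => by ring
      have e2 : ∀ j, ((a j) ^ 5) ^ 2 = (a j) ^ 10 := fun j => by ring
      simp only [e1, e2] at h
      exact h
    have hDsum : 32 / B ^ 2 * P ≤ ∑ j, (dd B (S j)) ^ 2 := by
      have e1 : 32 / B ^ 2 * P = ∑ j ∈ H, 32 / B ^ 2 * (a j) ^ 10 := by rw [hP, Finset.mul_sum]
      rw [e1]
      calc ∑ j ∈ H, 32 / B ^ 2 * (a j) ^ 10 ≤ ∑ j ∈ H, (dd B (S j)) ^ 2 := by
            apply Finset.sum_le_sum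
            intro j hj
            rw [hdd j]
            have h := hHmem j hj
            have h1 := haj j
            have hy1 : 1 / 2 ≤ (y j) ^ 2 := by
              by_contra hc
              push Not at hc
              have h3 : 1 / 2 < 1 - (y j) ^ 2 := by linarith
              have h5 : (a j) * (1 / 2) < a j * (1 - (y j) ^ 2) :=
                mul_lt_mul_of_pos_left h3 (hapos j)
              linarith
            have h10 : 0 < (a j) ^ 10 := by have := hapos j; positivity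
            have h11 : 32 / B ^ 2 * (a j) ^ 10 = 64 / B ^ 2 * (1 / 2 * (a j) ^ 10) := by ring
            rw [h11]
            apply mul_le_mul_of_nonneg_left _ (by positivity)
            exact mul_le_mul_of_nonneg_right hy1 h10.le
        _ ≤ ∑ j, (dd B (S j)) ^ 2 :=
            Finset.sum_le_sum_of_subset_of_nonneg (Finset.subset_univ _)
              (fun j _ _ => sq_nonneg _)
    have hBB : 0 < B ^ 2 := by positivity
    have hpos : 0 < ∑ j, (dd B (S j)) ^ 2 := lt_of_lt_of_le (by positivity) hDsum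
    refine ⟨hpos, ?_⟩
    have e0 : ∑ j, (hh B (S j)) ^ 6 = ∑ j, (a j) ^ 6 := rfl
    rw [e0]
    have hL0 : 0 ≤ 148 / B ^ 2 * ∑ j, (a j) ^ 6 :=
      mul_nonneg (by positivity) (Finset.sum_nonneg (fun j _ => by positivity))
    have hsq : (148 / B ^ 2 * ∑ j, (a j) ^ 6) ^ 2 ≤ (∑ j, (dd B (S j)) ^ 2) / 16 := by
      have h6n : 0 ≤ ∑ j, (a j) ^ 6 := Finset.sum_nonneg (fun j _ => by positivity)
      have h6H : 0 ≤ ∑ j ∈ H, (a j) ^ 6 := Finset.sum_nonneg (fun j _ => by positivity)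
      have s1 : (∑ j, (a j) ^ 6) ^ 2 ≤ 4 * (P * (16 * m)) := by
        have t1 : (∑ j, (a j) ^ 6) ^ 2 ≤ (2 * ∑ j ∈ H, (a j) ^ 6) ^ 2 :=
          pow_le_pow_left₀ h6n hs6' 2
        have t2 : P * ∑ j ∈ H, (a j) ^ 2 ≤ P * (16 * m) :=
          mul_le_mul_of_nonneg_left hH2 hPpos.le
        nlinarith
      have s2 : (148 / B ^ 2 * ∑ j, (a j) ^ 6) ^ 2 = 148 ^ 2 / (B ^ 2) ^ 2 * (∑ j, (a j) ^ 6) ^ 2 := by
        ring
      rw [s2]
      have s3 : 148 ^ 2 / (B ^ 2) ^ 2 * (∑ j, (a j) ^ 6) ^ 2 ≤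
          148 ^ 2 / (B ^ 2) ^ 2 * (4 * (P * (16 * m))) :=
        mul_le_mul_of_nonneg_left s1 (by positivity)
      have s4 : 148 ^ 2 / (B ^ 2) ^ 2 * (4 * (P * (16 * m))) ≤ 2 / B ^ 2 * P := by
        rw [hB2]
        exact aux1 hm0 hPpos.le
      have s7 : 2 / B ^ 2 * P = (32 / B ^ 2 * P) / 16 := by ring
      rw [s7] at s4
      linarith
    have hroot : Real.sqrt (∑ j, (dd B (S j)) ^ 2) / 4 =
        Real.sqrt ((∑ j, (dd B (S j)) ^ 2) / 16) := by
      rw [Real.sqrt_div' _ (by norm_num : (0 : ℝ) ≤ 16)]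
      congr 1
      rw [show (16 : ℝ) = 4 ^ 2 by norm_num, Real.sqrt_sq (by norm_num)]
    rw [hroot]
    exact Real.le_sqrt_of_sq_le hsq
  · have hle : ∀ j, (dd B (S j)) ^ 2 ≤ 64 / B ^ 2 * (512 * (m * r)) * (a j) ^ 4 := by
      intro j
      rw [hdd j]
      have e1 : (y j) ^ 2 * (a j) ^ 10 = (y j) ^ 2 * ((a j) ^ 6 * (a j) ^ 4) := by ring
      have h1 : (y j) ^ 2 * ((a j) ^ 6 * (a j) ^ 4) ≤ 1 * ((a j) ^ 6 * (a j) ^ 4) :=
        mul_le_mul_of_nonneg_right (hy2 j).le (by positivity)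
      have h3 : (a j) ^ 6 * (a j) ^ 4 ≤ 512 * (m * r) * (a j) ^ 4 :=
        mul_le_mul_of_nonneg_right (h6 j) (by positivity)
      rw [e1]
      have h5 : (y j) ^ 2 * ((a j) ^ 6 * (a j) ^ 4) ≤ 512 * (m * r) * (a j) ^ 4 := by linarith
      calc 64 / B ^ 2 * ((y j) ^ 2 * ((a j) ^ 6 * (a j) ^ 4))
          ≤ 64 / B ^ 2 * (512 * (m * r) * (a j) ^ 4) :=
            mul_le_mul_of_nonneg_left h5 (by positivity)
        _ = 64 / B ^ 2 * (512 * (m * r)) * (a j) ^ 4 := by ring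
    calc ∑ j, (dd B (S j)) ^ 2 ≤ ∑ j, 64 / B ^ 2 * (512 * (m * r)) * (a j) ^ 4 :=
          Finset.sum_le_sum (fun j _ => hle j)
      _ = 64 / B ^ 2 * (512 * (m * r)) * ∑ j, (a j) ^ 4 := by rw [Finset.mul_sum]
      _ ≤ 64 / B ^ 2 * (512 * (m * r)) * (64 * m) :=
          mul_le_mul_of_nonneg_left hs4 (by positivity)
      _ = (64 * 512 * 64 / 10 ^ 6) * (m * r) := by
          rw [hB2]
          exact aux3 hm0
      _ ≤ 9 / 4 * (m * r) := mul_le_mul_of_nonneg_right (by norm_num) (by positivity)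

end Pool.Agent.H30.JD
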